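import Mathlib

/-! Project SR (helper769), MP_140d1b_an: integral means of derivatives under subordination.
Definitions and statements of the parts (Mathlib only). -/

set_option autoImplicit false

namespace Pool.Agent.W769.SR

open Metric Set Filter Topology Real

/-- analytic self-maps of the unit disc fixing the origin -/
structure SelfMap (φ : ℂ → ℂ) : Prop where
  diff : DifferentiableOn ℂ φ (ball 0 1)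
  maps : MapsTo φ (ball 0 1) (ball 0 1)
  zero : φ 0 = 0

/-- average over the circle `|z| = r` -/
noncomputable def av (r : ℝ) (h : ℂ → ℝ) : ℝ := Real.circleAverage h 0 r

/-- Taylor coefficients at `0` -/
noncomputable def co (f : ℂ → ℂ) (k : ℕ) : ℂ := iteratedDeriv k f 0 / (k.factorial : ℂ)

/-- the `p`-th integral mean -/
noncomputable def Mp (p r : ℝ) (h : ℂ → ℂ) : ℝ :=
  ((∫ t in (0 : ℝ)..(2 * π), ‖h (r * Complex.exp (t * Complex.I))‖ ^ p) / (2 * π)) ^ (1 / p)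

/-- `g` is subordinate to `f` -/
def Sub (g f : ℂ → ℂ) : Prop := ∃ φ : ℂ → ℂ, SelfMap φ ∧ ∀ z ∈ ball (0 : ℂ) 1, g z = f (φ z)

/-- the property of `ρ` in the definition of `r_p` -/
def Good (p ρ : ℝ) : Prop := ∀ f g : ℂ → ℂ, DifferentiableOn ℂ f (ball 0 1) →
  DifferentiableOn ℂ g (ball 0 1) → Sub g f → ∀ r : ℝ, 0 < r → r < ρ →
  Mp p r (deriv g) ≤ Mp p r (deriv f)

/-- `r_p` -/
noncomputable def rp (p : ℝ) : ℝ := sSup {ρ : ℝ | 0 < ρ ∧ ρ ≤ 1 ∧ Good p ρ}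

/-! ### the parts -/

/-- (1) Littlewood, polynomials -/
def S_LITT : Prop := ∀ φ : ℂ → ℂ, SelfMap φ → ∀ (P : Polynomial ℂ) (r : ℝ), 0 < r → r < 1 →
  av r (fun z => ‖P.eval (φ z)‖ ^ 2) ≤
    ∑ k ∈ Finset.range (P.natDegree + 1), ‖P.coeff k‖ ^ 2 * r ^ (2 * k)

/-- (2) Parseval -/
def S_PARS : Prop := ∀ (f : ℂ → ℂ) (R r : ℝ), 0 < r → r < R → DifferentiableOn ℂ f (ball 0 R) →
  HasSum (fun k => ‖co f k‖ ^ 2 * r ^ (2 * k)) (av r (fun z => ‖f z‖ ^ 2))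

/-- (3) Rogosinski -/
def S_ROG : Prop := ∀ φ : ℂ → ℂ, SelfMap φ → ∀ (f : ℂ → ℂ) (R : ℝ), 0 < R → R ≤ 1 →
  DifferentiableOn ℂ f (ball 0 R) → ∀ n : ℕ,
  ∑ k ∈ Finset.range n, ‖co (fun z => f (φ z)) k‖ ^ 2 ≤ ∑ k ∈ Finset.range n, ‖co f k‖ ^ 2

/-- (4) weights `1` and `(k+1)^2` -/
def S_L2 : Prop := ∀ φ : ℂ → ℂ, SelfMap φ → ∀ (G : ℂ → ℂ) (R r : ℝ), 0 < r → r < R → R ≤ 1 →
  DifferentiableOn ℂ G (ball 0 R) →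
  av r (fun z => ‖G (φ z)‖ ^ 2) ≤ av r (fun z => ‖G z‖ ^ 2) ∧
  (r ≤ 1 / 2 → av r (fun z => ‖G (φ z) * deriv φ z‖ ^ 2) ≤ av r (fun z => ‖G z‖ ^ 2))

/-- (5) removing the zeros inside the circle -/
def S_FACT : Prop := ∀ (F : ℂ → ℂ) (r : ℝ), 0 < r → r < 1 → DifferentiableOn ℂ F (ball 0 1) →
  (∀ z, ‖z‖ = r → F z ≠ 0) → ∃ (R : ℝ) (F₂ : ℂ → ℂ), r < R ∧ R ≤ 1 ∧
    DifferentiableOn ℂ F₂ (ball 0 R) ∧ (∀ z ∈ ball (0 : ℂ) R, F₂ z ≠ 0) ∧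
    (∀ z, ‖z‖ ≤ r → ‖F z‖ ≤ ‖F₂ z‖) ∧ (∀ z, ‖z‖ = r → ‖F z‖ = ‖F₂ z‖)

/-- (6) powers of zero free functions -/
def S_POW : Prop := ∀ (F : ℂ → ℂ) (R s : ℝ), 0 < R → DifferentiableOn ℂ F (ball 0 R) →
  (∀ z ∈ ball (0 : ℂ) R, F z ≠ 0) → ∃ G : ℂ → ℂ, DifferentiableOn ℂ G (ball 0 R) ∧
    ∀ z ∈ ball (0 : ℂ) R, ‖G z‖ = ‖F z‖ ^ s

/-- the inequality for polynomials -/
def PolyIneq (q r : ℝ) : Prop := ∀ φ : ℂ → ℂ, SelfMap φ → ∀ P : Polynomial ℂ,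
  av r (fun z => ‖P.eval (φ z) * deriv φ z‖ ^ q) ≤ av r (fun z => ‖P.eval z‖ ^ q)

/-- (7) from polynomials to analytic functions -/
def S_APPR : Prop := ∀ q r R : ℝ, 0 < q → 0 < r → r < R → R ≤ 1 → PolyIneq q r →
  ∀ φ : ℂ → ℂ, SelfMap φ → ∀ G : ℂ → ℂ, DifferentiableOn ℂ G (ball 0 R) →
  av r (fun z => ‖G (φ z) * deriv φ z‖ ^ q) ≤ av r (fun z => ‖G z‖ ^ q)

/-- (8) from `Good` to polynomials, and the translation of the means -/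
def S_GOODPOLY : Prop := (∀ q ρ r : ℝ, 0 < q → ρ ≤ 1 → Good q ρ → 0 < r → r < ρ → PolyIneq q r) ∧
  (∀ p r : ℝ, 0 < p → 0 < r → r < 1 → ∀ f φ : ℂ → ℂ, DifferentiableOn ℂ f (ball 0 1) → SelfMap φ →
    ∀ g : ℂ → ℂ, (∀ z ∈ ball (0 : ℂ) 1, g z = f (φ z)) →
    (Mp p r (deriv g) ≤ Mp p r (deriv f) ↔
      av r (fun z => ‖deriv f (φ z) * deriv φ z‖ ^ p) ≤ av r (fun z => ‖deriv f z‖ ^ p)))

/-- (9) circles without zeros, weight `|φ'|^p` -/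
def S_NZ : Prop := ∀ p q r : ℝ, 0 < p → p ≤ q → 0 < r → r < 1 → PolyIneq q r →
  ∀ φ : ℂ → ℂ, SelfMap φ → ∀ F : ℂ → ℂ, DifferentiableOn ℂ F (ball 0 1) →
  (∀ z, ‖z‖ = r → F z ≠ 0) →
  av r (fun z => ‖F (φ z) * deriv φ z‖ ^ p) ≤ av r (fun z => ‖F z‖ ^ p)

/-- (9') circles without zeros, no weight: Littlewood for all `p` -/
def S_NZ0 : Prop := ∀ p r : ℝ, 0 < p → 0 < r → r < 1 →
  ∀ φ : ℂ → ℂ, SelfMap φ → ∀ F : ℂ → ℂ, DifferentiableOn ℂ F (ball 0 1) →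
  (∀ z, ‖z‖ = r → F z ≠ 0) →
  av r (fun z => ‖F (φ z)‖ ^ p) ≤ av r (fun z => ‖F z‖ ^ p)

/-- (10) passing to circles with zeros.  `ψ` is `1` or `deriv φ`. -/
def S_ALLR : Prop := ∀ (p ρ : ℝ), 0 < p → ρ ≤ 1 → ∀ φ : ℂ → ℂ, SelfMap φ →
  ∀ ψ : ℂ → ℂ, ContinuousOn ψ (ball 0 1) →
  ∀ F : ℂ → ℂ, DifferentiableOn ℂ F (ball 0 1) →
  (∀ r : ℝ, 0 < r → r < ρ → (∀ z, ‖z‖ = r → F z ≠ 0) →
    av r (fun z => ‖F (φ z) * ψ z‖ ^ p) ≤ av r (fun z => ‖F z‖ ^ p)) →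
  ∀ r : ℝ, 0 < r → r < ρ →
    av r (fun z => ‖F (φ z) * ψ z‖ ^ p) ≤ av r (fun z => ‖F z‖ ^ p)

/-- (11) Caratheodory's pointwise bound -/
def S_CARA : Prop := ∀ φ : ℂ → ℂ, SelfMap φ → ∀ z : ℂ, ‖z‖ ≤ √2 - 1 → ‖deriv φ z‖ ≤ 1

/-- (12) upper bound `1/2` -/
def S_HALF : Prop := ∀ p ρ : ℝ, 0 < p → ρ ≤ 1 → Good p ρ → ρ ≤ 1 / 2

/-- (13) upper bound for large `p` -/
def S_LARGE : Prop := ∀ ρ : ℝ, √2 - 1 < ρ → ρ ≤ 1 → ∃ P : ℝ, ∀ p : ℝ, P ≤ p → ¬ Good p ρ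

/-- (14) the pair for `p = 14` -/
noncomputable def phi14 (z : ℂ) : ℂ := z * (3 * z + 2) / (3 + 2 * z)

def S_14 : Prop := SelfMap phi14 ∧
  av (1 / 2) (fun z => ‖1 + z / 5‖ ^ (14 : ℕ)) <
    av (1 / 2) (fun z => ‖(1 + phi14 z / 5) * deriv phi14 z‖ ^ (14 : ℕ))

/-- (15) consequence: strict inequality at `p = 14` -/
def S_STRICT : Prop := ∃ ρ : ℝ, 0 < ρ ∧ ρ < 1 / 2 ∧ ¬ Good 14 ρ

/-- (16) monotonicity -/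
def S_MONO : Prop := ∀ p q ρ : ℝ, 0 < p → p ≤ q → ρ ≤ 1 → Good q ρ → Good p ρ

/-- (17) the result -/
def S_MAIN : Prop :=
  (∀ p : ℝ, 0 < p → p ≤ 2 → rp p = 1 / 2) ∧
  (∀ p q : ℝ, 0 < p → p ≤ q → rp q ≤ rp p) ∧
  (∀ p : ℝ, 14 ≤ p → rp p < 1 / 2) ∧
  Tendsto rp atTop (𝓝 (√2 - 1))

end Pool.Agent.W769.SR
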